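import Mathlib

/-!
# A polarity graph without short cycles

`K` is a finite field with `2 ^ (2 e + 1)` elements, `τ x = x ^ (2 ^ e)`.  On `K ^ 3` we consider the
symmetric relation `R x y : x₂ + y₃ = τ x₁ * y₁ ∧ x₃ + y₂ = x₁ * τ y₁`.
-/

namespace Q231.Sat6

set_option linter.unusedSectionVars false

variable {K : Type*} [Field K] [Fintype K] [CharP K 2] {e : ℕ}

/-- the field automorphism `x ↦ x ^ (2 ^ e)` -/
def tau (K : Type*) [Field K] [CharP K 2] (e : ℕ) : K →+* K := iterateFrobenius K 2 e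

theorem tau_apply (x : K) : tau K e x = x ^ 2 ^ e := iterateFrobenius_def 2 e x

theorem tau_inj {x y : K} (h : tau K e x = tau K e y) : x = y := (tau K e).injective h

theorem add_self' (x : K) : x + x = 0 := CharTwo.add_self_eq_zero x

theorem eq_of_add {x y : K} (h : x + y = 0) : x = y := by
  have := eq_neg_of_add_eq_zero_left h
  rwa [CharTwo.neg_eq] at this

theorem tau_tau_sq (hK : Fintype.card K = 2 ^ (2 * e + 1)) (w : K) :
    tau K e (tau K e w) ^ 2 = w := by
  rw [tau_apply, tau_apply, ← pow_mul, ← pow_mul]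
  have : 2 ^ e * (2 ^ e * 2) = Fintype.card K := by rw [hK]; ring
  rw [this]
  exact FiniteField.pow_card w

theorem one_of_tau_tau (hK : Fintype.card K = 2 ^ (2 * e + 1)) {w : K}
    (h : tau K e (tau K e w) = w) (h0 : w ≠ 0) : w = 1 := by
  have := tau_tau_sq hK w
  rw [h] at this
  have h2 : w * (w - 1) = 0 := by linear_combination this
  rcases mul_eq_zero.1 h2 with h3 | h3
  · exact absurd h3 h0
  · exact sub_eq_zero.1 h3

theorem key (hK : Fintype.card K = 2 ^ (2 * e + 1)) {u v X Y : K} (hu : u ≠ 0) (hv : v ≠ 0)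
    (hX : X ≠ 0) (h1 : tau K e u * X = tau K e v * Y) (h2 : u * tau K e X = v * tau K e Y) :
    u = v := by
  have tv : tau K e v ≠ 0 := by rw [Ne, map_eq_zero]; exact hv
  have tX : tau K e X ≠ 0 := by rw [Ne, map_eq_zero]; exact hX
  have hw : tau K e (u / v) = Y / X := by
    rw [map_div₀, div_eq_div_iff tv hX, h1]; ring
  have hz : u / v = tau K e (Y / X) := by
    rw [map_div₀, div_eq_div_iff hv tX, h2]; ring
  have h3 : tau K e (tau K e (u / v)) = u / v := by rw [hw, ← hz]
  have := one_of_tau_tau hK h3 (div_ne_zero hu hv)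
  exact (div_eq_one_iff_eq hv).1 this

theorem key_abs (hK : Fintype.card K = 2 ^ (2 * e + 1)) {u v : K}
    (h : tau K e u * u = tau K e v * v) : u = v := by
  by_cases hv : v = 0
  · subst hv
    rw [mul_zero] at h
    rcases mul_eq_zero.1 h with h1 | h1
    · exact (map_eq_zero _).1 h1
    · exact h1
  · have tv : tau K e v ≠ 0 := by rw [Ne, map_eq_zero]; exact hv
    have h1 : tau K e (u / v) * (u / v) = 1 := by
      rw [map_div₀]
      field_simp
      exact h
    have hw : u / v ≠ 0 := by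
      intro h0; rw [h0] at h1; simp at h1
    have tw : tau K e (u / v) ≠ 0 := by rw [Ne, map_eq_zero]; exact hw
    have h2 : tau K e (tau K e (u / v)) * tau K e (u / v) = 1 := by
      rw [← map_mul, h1, map_one]
    have h3 : tau K e (tau K e (u / v)) = u / v := by
      apply mul_right_cancel₀ tw
      rw [h2, mul_comm (u / v), h1]
    exact (div_eq_one_iff_eq hv).1 (one_of_tau_tau hK h3 hw)

omit [Fintype K] in
/-- adjacency (with loops) -/
def R (e : ℕ) (x y : K × K × K) : Prop :=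
  x.2.1 + y.2.2 = tau K e x.1 * y.1 ∧ x.2.2 + y.2.1 = x.1 * tau K e y.1

theorem R.symm {x y : K × K × K} (h : R e x y) : R e y x := by
  obtain ⟨h1, h2⟩ := h
  constructor
  · rw [add_comm, h2]; ring
  · rw [add_comm, h1]; ring

omit [Fintype K] in
/-- neighbour with given first coordinate -/
def nb (e : ℕ) (x : K × K × K) (a : K) : K × K × K :=
  (a, x.2.2 + x.1 * tau K e a, x.2.1 + tau K e x.1 * a)

theorem R_nb (x : K × K × K) (a : K) : R e x (nb e x a) := by
  constructor
  · show x.2.1 + (x.2.1 + tau K e x.1 * a) = _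
    rw [← add_assoc, add_self', zero_add]; rfl
  · show x.2.2 + (x.2.2 + x.1 * tau K e a) = _
    rw [← add_assoc, add_self', zero_add]; rfl

theorem eq_nb {x y : K × K × K} (h : R e x y) : y = nb e x y.1 := by
  obtain ⟨h1, h2⟩ := h
  refine Prod.ext rfl (Prod.ext ?_ ?_)
  · show y.2.1 = x.2.2 + x.1 * tau K e y.1
    rw [← h2, ← add_assoc, add_self', zero_add]
  · show y.2.2 = x.2.1 + tau K e x.1 * y.1
    rw [← h1, ← add_assoc, add_self', zero_add]

theorem nbr_unique {x y z : K × K × K} (h1 : R e x y) (h2 : R e x z) (h : y.1 = z.1) : y = z := by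
  rw [eq_nb h1, eq_nb h2, h]

theorem nbr_ne {x y z : K × K × K} (h1 : R e x y) (h2 : R e x z) (h : y ≠ z) : y.1 ≠ z.1 :=
  fun hh => h (nbr_unique h1 h2 hh)

/-- two vertices have at most one common neighbour -/
theorem two_walk {x y z y' : K × K × K} (h1 : R e x y) (h2 : R e y z) (h3 : R e x y')
    (h4 : R e y' z) (hne : x ≠ z) : y = y' := by
  have hxz : x.1 ≠ z.1 := nbr_ne h1.symm h2 hne
  by_contra hyy
  have hyy' : y.1 ≠ y'.1 := nbr_ne h1 h3 hyy
  have e1 := h1.1
  have e2 := h2.2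
  have e3 := h3.1
  have e4 := h4.2
  have hprod : (tau K e x.1 + tau K e z.1) * (y.1 + y'.1) = 0 := by
    have c2 : (2 : K) = 0 := CharTwo.two_eq_zero
    linear_combination (-e1) - e2 - e3 - e4 +
      (x.2.1 + y.2.2 + z.2.1 + y'.2.2) * c2
  rcases mul_eq_zero.1 hprod with h | h
  · exact hxz (tau_inj (eq_of_add h))
  · exact hyy' (eq_of_add h)

/-- no closed walk of length six without backtracking -/
theorem six (hK : Fintype.card K = 2 ^ (2 * e + 1)) {x0 x1 x2 x3 x4 x5 : K × K × K}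
    (h01 : R e x0 x1) (h12 : R e x1 x2) (h23 : R e x2 x3) (h34 : R e x3 x4) (h45 : R e x4 x5)
    (h50 : R e x5 x0) (n02 : x0.1 ≠ x2.1) (n24 : x2.1 ≠ x4.1) (n15 : x1.1 ≠ x5.1)
    (n40 : x4.1 ≠ x0.1) : False := by
  have c2 : (2 : K) = 0 := CharTwo.two_eq_zero
  have hu : x0.1 + x2.1 ≠ 0 := fun h => n02 (eq_of_add h)
  have hv : x2.1 + x4.1 ≠ 0 := fun h => n24 (eq_of_add h)
  have hX : x1.1 + x5.1 ≠ 0 := fun h => n15 (eq_of_add h)
  have e1 : tau K e (x0.1 + x2.1) * (x1.1 + x5.1) = tau K e (x2.1 + x4.1) * (x3.1 + x5.1) := by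
    rw [map_add, map_add]
    linear_combination (-h01.1) - h12.2 - h23.1 - h34.2 - h45.1 - h50.2 +
      (x0.2.1 + x1.2.2 + x2.2.1 + x3.2.2 + x4.2.1 + x5.2.2
        - tau K e x2.1 * x3.1 - tau K e x4.1 * x3.1 - tau K e x4.1 * x5.1) * c2
  have e2 : (x0.1 + x2.1) * tau K e (x1.1 + x5.1) = (x2.1 + x4.1) * tau K e (x3.1 + x5.1) := by
    rw [map_add, map_add]
    linear_combination (-h01.2) - h12.1 - h23.2 - h34.1 - h45.2 - h50.1 +
      (x0.2.2 + x1.2.1 + x2.2.2 + x3.2.1 + x4.2.2 + x5.2.1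
        - x2.1 * tau K e x3.1 - x4.1 * tau K e x3.1 - x4.1 * tau K e x5.1) * c2
  have h := key hK hu hv hX e1 e2
  have : x0.1 = x4.1 := by linear_combination h
  exact n40 this.symm

/-- walks of length three without backtracking are determined by their ends -/
theorem three_walk (hK : Fintype.card K = 2 ^ (2 * e + 1)) {x y z w y' z' : K × K × K}
    (h1 : R e x y) (h2 : R e y z) (h3 : R e z w) (h4 : R e x y') (h5 : R e y' z')
    (h6 : R e z' w) (n1 : x ≠ z) (n2 : y ≠ w) (n3 : x ≠ z') (n4 : y' ≠ w) :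
    y = y' ∧ z = z' := by
  by_cases hy : y = y'
  · subst hy
    exact ⟨rfl, two_walk h2 h3 h5 h6 n2⟩
  · by_cases hz : z = z'
    · subst hz
      exact ⟨two_walk h1 h2 h4 h5 n1, rfl⟩
    · exfalso
      exact six hK h1 h2 h3 h6.symm h5.symm h4.symm (nbr_ne h1.symm h2 n1)
        (nbr_ne h3.symm h6.symm hz) (nbr_ne h1 h4 hy) (nbr_ne h5 h4.symm n3.symm)

/-- at most one neighbour carries a loop -/
theorem abs_unique (hK : Fintype.card K = 2 ^ (2 * e + 1)) {x y z : K × K × K}
    (h1 : R e x y) (h2 : R e y y) (h3 : R e x z) (h4 : R e z z) : y = z := by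
  have c2 : (2 : K) = 0 := CharTwo.two_eq_zero
  have e1 : tau K e (x.1 + y.1) * (x.1 + y.1) = tau K e (x.1 + z.1) * (x.1 + z.1) := by
    rw [map_add, map_add]
    linear_combination h2.1 - h4.1 + h1.1 * (-1) - h1.2 + h3.1 + h3.2 +
      (tau K e y.1 * y.1 - z.1 * tau K e z.1) * c2
  have := key_abs hK e1
  exact nbr_unique h1 h3 (by linear_combination this)

end Q231.Sat6
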