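import Mathlib

namespace Q231.Sat6

/-- greedy choice of pairwise disjoint quadruples -/
theorem greedy {ι V : Type*} [DecidableEq V] (S : Finset ι) (f : ι → Fin 4 → V)
    (D : ℕ) (hD : ∀ v i, (S.filter fun g => f g i = v).card ≤ D) :
    ∃ M ⊆ S, (∀ g ∈ M, ∀ g' ∈ M, g ≠ g' → ∀ i j, f g i ≠ f g' j) ∧
      S.card ≤ 16 * M.card * D := by
  classical
  let dis : Finset ι → Prop := fun M => ∀ g ∈ M, ∀ g' ∈ M, g ≠ g' → ∀ i j, f g i ≠ f g' j
  have : DecidablePred dis := Classical.decPred _
  let T := S.powerset.filter dis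
  have hT : T.Nonempty := ⟨∅, by
    rw [Finset.mem_filter]
    exact ⟨by simp, fun g hg => absurd hg (Finset.notMem_empty g)⟩⟩
  obtain ⟨M, hM, hmax⟩ := Finset.exists_max_image T Finset.card hT
  rw [Finset.mem_filter, Finset.mem_powerset] at hM
  refine ⟨M, hM.1, hM.2, ?_⟩
  have hcov : S ⊆ (M ×ˢ ((Finset.univ : Finset (Fin 4)) ×ˢ (Finset.univ : Finset (Fin 4)))).biUnion
      fun t => S.filter fun g => f g t.2.1 = f t.1 t.2.2 := by
    intro g hg
    rw [Finset.mem_biUnion]
    by_cases hgM : g ∈ M
    · exact ⟨(g, 0, 0), by simp [hgM], by simp [hg]⟩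
    · by_contra hno
      push Not at hno
      have hdis : ∀ g' ∈ M, ∀ i j, f g i ≠ f g' j := by
        intro g' hg' i j hij
        exact hno (g', i, j) (by simp [hg']) (by simp [hg, hij])
      have hin : insert g M ∈ T := by
        rw [Finset.mem_filter, Finset.mem_powerset]
        refine ⟨Finset.insert_subset hg hM.1, ?_⟩
        intro a ha b hb hab i j
        rw [Finset.mem_insert] at ha hb
        rcases ha with rfl | ha <;> rcases hb with rfl | hb
        · exact absurd rfl hab
        · exact hdis b hb i j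
        · exact fun h => hdis a ha j i h.symm
        · exact hM.2 a ha b hb hab i j
      have := hmax _ hin
      rw [Finset.card_insert_of_notMem hgM] at this
      omega
  refine (Finset.card_le_card hcov).trans ?_
  refine (Finset.card_biUnion_le_card_mul _ _ D fun t _ => hD _ _).trans ?_
  rw [Finset.card_product, Finset.card_product]
  simp only [Finset.card_univ, Fintype.card_fin]
  apply Nat.mul_le_mul_right
  omega

/-- number of colourings in which no quadruple of a disjoint family is completely coloured `κ` -/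
theorem card_avoid {ι V C : Type*} [Fintype ι] [Fintype V] [Fintype C] [DecidableEq V]
    [DecidableEq ι] [DecidableEq C] (f : ι × Fin 4 → V) (hf : Function.Injective f) (κ : C) :
    Fintype.card {c : V → C // ∀ g : ι, ∃ i, c (f (g, i)) ≠ κ} * (Fintype.card C ^ 4) ^ Fintype.card ι
      = Fintype.card C ^ Fintype.card V * (Fintype.card C ^ 4 - 1) ^ Fintype.card ι := by
  classical
  -- split the vertex set
  let p : V → Prop := fun v => v ∈ Set.range f
  let e1 : (V → C) ≃ ({v // p v} → C) × ({v // ¬ p v} → C) := Equiv.piEquivPiSubtypeProd p _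
  let e2 : ι × Fin 4 ≃ {v // p v} := Equiv.ofInjective f hf
  let e3 : ({v // p v} → C) ≃ (ι → Fin 4 → C) :=
    (Equiv.arrowCongr e2.symm (Equiv.refl C)).trans (Equiv.curry ι (Fin 4) C)
  let e4 : (V → C) ≃ (ι → Fin 4 → C) × ({v // ¬ p v} → C) :=
    e1.trans (Equiv.prodCongr e3 (Equiv.refl _))
  have he4 : ∀ (c : V → C) g i, (e4 c).1 g i = c (f (g, i)) := by
    intro c g i
    simp [e4, e1, e3, e2, Equiv.arrowCongr, Equiv.piEquivPiSubtypeProd]
    rfl
  let Q : (Fin 4 → C) → Prop := fun r => ∃ i, r i ≠ κ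
  have hcardQ : Fintype.card {r : Fin 4 → C // Q r} = Fintype.card C ^ 4 - 1 := by
    have h1 : Fintype.card {r : Fin 4 → C // ¬ Q r} = 1 := by
      rw [Fintype.card_eq_one_iff]
      refine ⟨⟨fun _ => κ, by simp [Q]⟩, ?_⟩
      rintro ⟨r, hr⟩
      apply Subtype.ext
      funext i
      simp only [Q, not_exists, not_not] at hr
      exact hr i
    have h2 := Fintype.card_subtype_compl Q
    rw [h1] at h2
    have h3 : Fintype.card (Fin 4 → C) = Fintype.card C ^ 4 := by simp
    rw [h3] at h2
    have h4 := Fintype.card_subtype_le Q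
    rw [h3] at h4
    omega
  have e5 : {c : V → C // ∀ g : ι, ∃ i, c (f (g, i)) ≠ κ} ≃
      {h : ι → Fin 4 → C // ∀ g, Q (h g)} × ({v // ¬ p v} → C) := by
    refine (e4.subtypeEquiv (q := fun t => ∀ g, Q (t.1 g)) ?_).trans ?_
    · intro c
      simp only [Q, he4]
    · exact {
        toFun := fun t => (⟨t.1.1, t.2⟩, t.1.2)
        invFun := fun t => ⟨(t.1.1, t.2), t.1.2⟩
        left_inv := fun t => rfl
        right_inv := fun t => rfl }
  have e6 : {h : ι → Fin 4 → C // ∀ g, Q (h g)} ≃ (ι → {r : Fin 4 → C // Q r}) :=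
    Equiv.subtypePiEquivPi
  rw [Fintype.card_congr e5, Fintype.card_prod, Fintype.card_congr e6, Fintype.card_fun,
    Fintype.card_fun, hcardQ]
  have hVcard : Fintype.card {v // ¬ p v} + 4 * Fintype.card ι = Fintype.card V := by
    have h1 : Fintype.card {v // p v} = Fintype.card ι * 4 := by
      rw [← Fintype.card_congr e2, Fintype.card_prod, Fintype.card_fin]
    have h2 := Fintype.card_subtype_compl p
    have h3 := Fintype.card_subtype_le p
    omega
  rw [← hVcard, pow_add, pow_mul]
  ring

end Q231.Sat6
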