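import Pool.Agent.Q231.Sat6.Count
import Pool.Agent.Q231.Sat6.Prob

namespace Q231.Sat6

set_option linter.unusedSectionVars false

/-- the survival probability of one quadruple -/
noncomputable def rr : ℝ := (64 ^ 4 - 1) / 64 ^ 4

theorem rr_pos : 0 < rr := by unfold rr; norm_num
theorem rr_lt : rr < 1 := by unfold rr; norm_num

theorem numeric : ∃ q0 : ℕ, ∀ q : ℕ, q0 ≤ q →
    ((q : ℝ) ^ 3) ^ 2 * 64 * rr ^ ((q - 13) / 16) < 1 := by
  have h := tendsto_pow_const_mul_const_pow_of_abs_lt_one 6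
    (show |rr| < 1 by rw [abs_of_pos rr_pos]; exact rr_lt)
  have hε : (0 : ℝ) < rr / (64 * 45 ^ 6) := div_pos rr_pos (by norm_num)
  have h2 := h.eventually (gt_mem_nhds hε)
  rw [Filter.eventually_atTop] at h2
  obtain ⟨m1, hm1⟩ := h2
  refine ⟨16 * m1 + 13, fun q hq => ?_⟩
  set m := (q - 13) / 16 with hm
  have hmm : m1 ≤ m + 1 := by omega
  have h3 := hm1 (m + 1) hmm
  have hq2 : (q : ℝ) ≤ 45 * ((m + 1 : ℕ) : ℝ) := by
    have : q ≤ 45 * (m + 1) := by omega
    exact_mod_cast this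
  have h4 : (q : ℝ) ^ 6 ≤ (45 * ((m + 1 : ℕ) : ℝ)) ^ 6 := by gcongr
  have h5 : ((q : ℝ) ^ 3) ^ 2 = (q : ℝ) ^ 6 := by ring
  rw [h5]
  have hr := rr_pos
  rw [lt_div_iff₀ (by norm_num)] at h3
  calc (q : ℝ) ^ 6 * 64 * rr ^ m ≤ (45 * ((m + 1 : ℕ) : ℝ)) ^ 6 * 64 * rr ^ m := by gcongr
    _ = (((m + 1 : ℕ) : ℝ) ^ 6 * rr ^ (m + 1) * (64 * 45 ^ 6)) / rr := by
        rw [pow_succ rr m]; field_simp
    _ < rr / rr := by gcongr
    _ = 1 := div_self hr.ne'

variable {K : Type*} [Field K] [Fintype K] [DecidableEq K] [CharP K 2] {e : ℕ}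

/-- number of bad colourings for one pair and one colour -/
theorem bad_card (hK : Fintype.card K = 2 ^ (2 * e + 1)) {x y : K × K × K} (hxy : x ≠ y)
    (hR : ¬ R e x y) (κ : Fin 64) (B : Finset ((K × K × K) → Fin 64))
    (hB : ∀ c ∈ B, ∀ g ∈ GoodSet e x y, ∃ i, c (inner e x y g i) ≠ κ) :
    (B.card : ℝ) ≤ (64 : ℝ) ^ (Fintype.card (K × K × K)) *
      rr ^ ((Fintype.card K - 13) / 16) := by
  classical
  obtain ⟨M, hM1, hM2, hM3⟩ := greedy (GoodSet e x y) (inner e x y) (Fintype.card K)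
    (fun v i => by convert card_through hK v i)
  have hcard := card_goodSet hK hxy hR
  have hq : 0 < Fintype.card K := Fintype.card_pos
  have hm : (Fintype.card K - 13) / 16 ≤ M.card := by
    have h1 : Fintype.card K * Fintype.card K ≤ 16 * M.card * Fintype.card K +
        13 * Fintype.card K := hcard.trans (by omega)
    have h2 : Fintype.card K * Fintype.card K ≤ (16 * M.card + 13) * Fintype.card K := by
      rw [add_mul]; exact h1
    have h3 := Nat.le_of_mul_le_mul_right h2 hq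
    omega
  let f : {g // g ∈ M} × Fin 4 → K × K × K := fun t => inner e x y t.1.1 t.2
  have hf : Function.Injective f := by
    rintro ⟨⟨g, hg⟩, i⟩ ⟨⟨g', hg'⟩, j⟩ h
    have h' : inner e x y g i = inner e x y g' j := h
    by_cases hgg : g = g'
    · subst hgg
      have hgood := (mem_goodSet.1 (hM1 hg)).2
      have : i = j := by
        by_contra hij
        revert h' hij
        match i, j with
        | 0, 0 => simp
        | 0, 1 => exact fun h _ => hgood.n12 h
        | 0, 2 => exact fun h _ => hgood.n13 h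
        | 0, 3 => exact fun h _ => hgood.n14 h
        | 1, 0 => exact fun h _ => hgood.n12 h.symm
        | 1, 1 => simp
        | 1, 2 => exact fun h _ => hgood.n23 h
        | 1, 3 => exact fun h _ => hgood.n24 h
        | 2, 0 => exact fun h _ => hgood.n13 h.symm
        | 2, 1 => exact fun h _ => hgood.n23 h.symm
        | 2, 2 => simp
        | 2, 3 => exact fun h _ => hgood.n34 h
        | 3, 0 => exact fun h _ => hgood.n14 h.symm
        | 3, 1 => exact fun h _ => hgood.n24 h.symm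
        | 3, 2 => exact fun h _ => hgood.n34 h.symm
        | 3, 3 => simp
      rw [this]
    · exact absurd h' (hM2 g hg g' hg' hgg i j)
  have hav := card_avoid f hf κ
  have hle : B.card ≤ Fintype.card {c : (K × K × K) → Fin 64 // ∀ g : {g // g ∈ M},
      ∃ i, c (f (g, i)) ≠ κ} := by
    rw [Fintype.card_subtype]
    apply Finset.card_le_card
    intro c hc
    rw [Finset.mem_filter]
    exact ⟨Finset.mem_univ _, fun g => hB c hc g.1 (hM1 g.2)⟩
  have hleR : (B.card : ℝ) ≤ (Fintype.card {c : (K × K × K) → Fin 64 // ∀ g : {g // g ∈ M},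
      ∃ i, c (f (g, i)) ≠ κ} : ℝ) := by exact_mod_cast hle
  refine hleR.trans ?_
  have hcM : Fintype.card {g // g ∈ M} = M.card := by simp
  rw [hcM, Fintype.card_fin] at hav
  have havR : (Fintype.card {c : (K × K × K) → Fin 64 // ∀ g : {g // g ∈ M},
      ∃ i, c (f (g, i)) ≠ κ} : ℝ) * ((64 : ℝ) ^ 4) ^ M.card =
      64 ^ Fintype.card (K × K × K) * (64 ^ 4 - 1) ^ M.card := by
    have := congrArg (Nat.cast : ℕ → ℝ) hav
    push_cast at this
    have e2 : (64 : ℝ) ^ 4 - 1 = 16777215 := by norm_num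
    have e1 : (64 : ℝ) ^ 4 = 16777216 := by norm_num
    rw [e2, e1]
    exact this
  have hrr : (64 : ℝ) ^ 4 * rr = 64 ^ 4 - 1 := by unfold rr; norm_num
  have heq : (Fintype.card {c : (K × K × K) → Fin 64 // ∀ g : {g // g ∈ M},
      ∃ i, c (f (g, i)) ≠ κ} : ℝ) = 64 ^ Fintype.card (K × K × K) * rr ^ M.card := by
    have h1 : ((64 : ℝ) ^ 4) ^ M.card ≠ 0 := by positivity
    apply mul_right_cancel₀ h1
    rw [havR, ← hrr, mul_pow]; ring
  rw [heq]
  have : rr ^ M.card ≤ rr ^ ((Fintype.card K - 13) / 16) :=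
    pow_le_pow_of_le_one rr_pos.le rr_lt.le hm
  gcongr

/-- a colouring for which every pair of nonadjacent vertices is joined by a path of length five
with inner vertices in any given colour class -/
theorem exists_coloring (hK : Fintype.card K = 2 ^ (2 * e + 1))
    (hbig : ((Fintype.card K : ℝ) ^ 3) ^ 2 * 64 * rr ^ ((Fintype.card K - 13) / 16) < 1) :
    ∃ c : (K × K × K) → Fin 64, ∀ x y, x ≠ y → ¬ R e x y → ∀ κ,
      ∃ g ∈ GoodSet e x y, ∀ i, c (inner e x y g i) = κ := by
  classical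
  by_contra hno
  push Not at hno
  let T : Finset (((K × K × K) × (K × K × K)) × Fin 64) :=
    Finset.univ.filter fun t => t.1.1 ≠ t.1.2 ∧ ¬ R e t.1.1 t.1.2
  let B : ((K × K × K) × (K × K × K)) × Fin 64 → Finset ((K × K × K) → Fin 64) := fun t =>
    Finset.univ.filter fun c => ∀ g ∈ GoodSet e t.1.1 t.1.2, ∃ i, c (inner e t.1.1 t.1.2 g i) ≠ t.2
  have hcov : (Finset.univ : Finset ((K × K × K) → Fin 64)) ⊆ T.biUnion B := by
    intro c _
    obtain ⟨x, y, hxy, hR, κ, hκ⟩ := hno c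
    rw [Finset.mem_biUnion]
    refine ⟨((x, y), κ), ?_, ?_⟩
    · rw [Finset.mem_filter]; exact ⟨Finset.mem_univ _, hxy, hR⟩
    · rw [Finset.mem_filter]; exact ⟨Finset.mem_univ _, hκ⟩
  have h1 : (64 : ℝ) ^ Fintype.card (K × K × K) ≤ ∑ t ∈ T, ((B t).card : ℝ) := by
    have h2 := (Finset.card_le_card hcov).trans Finset.card_biUnion_le
    rw [Finset.card_univ, Fintype.card_fun, Fintype.card_fin] at h2
    exact_mod_cast h2
  have h3 : ∑ t ∈ T, ((B t).card : ℝ) ≤ T.card • ((64 : ℝ) ^ (Fintype.card (K × K × K)) *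
      rr ^ ((Fintype.card K - 13) / 16)) := by
    apply Finset.sum_le_card_nsmul
    intro t ht
    rw [Finset.mem_filter] at ht
    refine bad_card hK ht.2.1 ht.2.2 t.2 (B t) ?_
    intro c hc
    rw [Finset.mem_filter] at hc
    exact hc.2
  have hT : (T.card : ℝ) ≤ ((Fintype.card K : ℝ) ^ 3) ^ 2 * 64 := by
    have h4 : T.card ≤ Fintype.card (((K × K × K) × (K × K × K)) × Fin 64) := Finset.card_le_univ _
    have h5 : Fintype.card (((K × K × K) × (K × K × K)) × Fin 64) =
        ((Fintype.card K) ^ 3) ^ 2 * 64 := by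
      simp only [Fintype.card_prod, Fintype.card_fin]; ring
    rw [h5] at h4
    exact_mod_cast h4
  rw [nsmul_eq_mul] at h3
  have hr := rr_pos
  have hpos : (0 : ℝ) < 64 ^ Fintype.card (K × K × K) := by positivity
  have h6 : (T.card : ℝ) * ((64 : ℝ) ^ (Fintype.card (K × K × K)) *
      rr ^ ((Fintype.card K - 13) / 16)) ≤ ((Fintype.card K : ℝ) ^ 3) ^ 2 * 64 *
      ((64 : ℝ) ^ (Fintype.card (K × K × K)) * rr ^ ((Fintype.card K - 13) / 16)) := by
    gcongr
  have h7 : ((Fintype.card K : ℝ) ^ 3) ^ 2 * 64 *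
      ((64 : ℝ) ^ (Fintype.card (K × K × K)) * rr ^ ((Fintype.card K - 13) / 16)) <
      64 ^ Fintype.card (K × K × K) := by
    calc ((Fintype.card K : ℝ) ^ 3) ^ 2 * 64 *
      ((64 : ℝ) ^ (Fintype.card (K × K × K)) * rr ^ ((Fintype.card K - 13) / 16)) =
        (((Fintype.card K : ℝ) ^ 3) ^ 2 * 64 * rr ^ ((Fintype.card K - 13) / 16)) *
          64 ^ Fintype.card (K × K × K) := by ring
      _ < 1 * 64 ^ Fintype.card (K × K × K) := by gcongr
      _ = _ := one_mul _
  linarith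

end Q231.Sat6
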