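import Pool.Agent.Q231.Sat6.Walk

namespace Q231.Sat6

set_option linter.unusedSectionVars false

variable {K : Type*} [Field K] [Fintype K] [CharP K 2] {e : ℕ}

/-- quadruples of vertices -/
abbrev Quad (K : Type*) := (K × K × K) × (K × K × K) × (K × K × K) × (K × K × K)

open Classical in
/-- a chosen walk -/
noncomputable def P (e : ℕ) (x y : K × K × K) (g : K × K) : Quad K :=
  if h : ∃ p, IsWalk e x y g p then h.choose else (x, x, x, x)

/-- the base conditions -/
def Base (x : K × K × K) (g : K × K) : Prop := g.1 ≠ x.1 ∧ g.1 ≠ g.2 ∧ g.2 ≠ x.1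

theorem P_spec (hK : Fintype.card K = 2 ^ (2 * e + 1)) (x y : K × K × K) (g : K × K)
    (h : Base x g) : IsWalk e x y g (P e x y g) := by
  have hex := exists_walk hK x y g h.1 h.2.1 h.2.2
  unfold P
  rw [dif_pos hex]
  exact hex.choose_spec

/-- a walk which is a path -/
structure Good (e : ℕ) (x y : K × K × K) (g : K × K) (p : Quad K) : Prop where
  w : IsWalk e x y g p
  n01 : x ≠ p.1
  n02 : x ≠ p.2.1
  n03 : x ≠ p.2.2.1
  n04 : x ≠ p.2.2.2
  n12 : p.1 ≠ p.2.1
  n13 : p.1 ≠ p.2.2.1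
  n14 : p.1 ≠ p.2.2.2
  n15 : p.1 ≠ y
  n23 : p.2.1 ≠ p.2.2.1
  n24 : p.2.1 ≠ p.2.2.2
  n25 : p.2.1 ≠ y
  n34 : p.2.2.1 ≠ p.2.2.2
  n35 : p.2.2.1 ≠ y
  n45 : p.2.2.2 ≠ y

theorem card_fst (S : Finset (K × K)) (h : ∀ g ∈ S, ∀ g' ∈ S, g.1 = g'.1 → g.2 = g'.2) :
    S.card ≤ Fintype.card K := by
  rw [← Finset.card_univ]
  exact Finset.card_le_card_of_injOn Prod.fst (fun _ _ => Finset.mem_univ _)
    (fun g hg g' hg' hgg => Prod.ext hgg (h g hg g' hg' hgg))

theorem card_snd (S : Finset (K × K)) (h : ∀ g ∈ S, ∀ g' ∈ S, g.2 = g'.2 → g.1 = g'.1) :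
    S.card ≤ Fintype.card K := by
  rw [← Finset.card_univ]
  exact Finset.card_le_card_of_injOn Prod.snd (fun _ _ => Finset.mem_univ _)
    (fun g hg g' hg' hgg => Prod.ext (h g hg g' hg' hgg) hgg)

/-- the bad events -/
def Bad (e : ℕ) (x y : K × K × K) : Fin 13 → K × K → Prop := fun i g =>
  match i with
  | 0 => g.1 = x.1
  | 1 => g.1 = g.2
  | 2 => g.2 = x.1
  | 3 => g.1 = y.1
  | 4 => g.2 = y.1
  | 5 => Base x g ∧ (P e x y g).2.2.1 = x
  | 6 => Base x g ∧ (P e x y g).1 = (P e x y g).2.2.2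
  | 7 => Base x g ∧ (P e x y g).1 = (P e x y g).2.2.1
  | 8 => Base x g ∧ (P e x y g).2.2.1 = y
  | 9 => Base x g ∧ (P e x y g).1 = x ∧ (P e x y g).2.2.1 ≠ y
  | 10 => Base x g ∧ (P e x y g).1 = (P e x y g).2.1
  | 11 => Base x g ∧ (P e x y g).2.1 = (P e x y g).2.2.1
  | 12 => Base x g ∧ (P e x y g).2.2.1 = (P e x y g).2.2.2

theorem ne_of_fst {u v : K × K × K} (h : u.1 ≠ v.1) : u ≠ v := fun hh => h (by rw [hh])

open Classical in
theorem card_bad (hK : Fintype.card K = 2 ^ (2 * e + 1)) {x y : K × K × K} (hxy : x ≠ y)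
    (hR : ¬ R e x y) (i : Fin 13) :
    (Finset.univ.filter (Bad e x y i)).card ≤ Fintype.card K := by
  have hs := P_spec hK x y
  match i with
  | 0 =>
    refine card_snd _ fun g hg g' hg' _ => ?_
    simp only [Finset.mem_filter, Finset.mem_univ, true_and, Bad] at hg hg'
    rw [hg, hg']
  | 1 =>
    refine card_snd _ fun g hg g' hg' h => ?_
    simp only [Finset.mem_filter, Finset.mem_univ, true_and, Bad] at hg hg'
    rw [hg, hg', h]
  | 2 =>
    refine card_fst _ fun g hg g' hg' _ => ?_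
    simp only [Finset.mem_filter, Finset.mem_univ, true_and, Bad] at hg hg'
    rw [hg, hg']
  | 3 =>
    refine card_snd _ fun g hg g' hg' _ => ?_
    simp only [Finset.mem_filter, Finset.mem_univ, true_and, Bad] at hg hg'
    rw [hg, hg']
  | 4 =>
    refine card_fst _ fun g hg g' hg' _ => ?_
    simp only [Finset.mem_filter, Finset.mem_univ, true_and, Bad] at hg hg'
    rw [hg, hg']
  | 5 =>
    refine card_fst _ fun g hg g' hg' _ => ?_
    simp only [Finset.mem_filter, Finset.mem_univ, true_and, Bad] at hg hg'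
    have w := hs g hg.1
    have w' := hs g' hg'.1
    have a1 := w.h34
    have a1' := w'.h34
    rw [hg.2] at a1
    rw [hg'.2] at a1'
    rw [← w.d, ← w'.d, two_walk a1 w.h45 a1' w'.h45 hxy]
  | 6 =>
    refine card_fst _ fun g hg g' hg' _ => ?_
    simp only [Finset.mem_filter, Finset.mem_univ, true_and, Bad] at hg hg'
    have w := hs g hg.1
    have w' := hs g' hg'.1
    have a1 := w.h01
    have a1' := w'.h01
    rw [hg.2] at a1
    rw [hg'.2] at a1'
    rw [← w.d, ← w'.d, two_walk a1 w.h45 a1' w'.h45 hxy]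
  | 7 =>
    refine card_fst _ fun g hg g' hg' _ => ?_
    simp only [Finset.mem_filter, Finset.mem_univ, true_and, Bad] at hg hg'
    have w := hs g hg.1
    have w' := hs g' hg'.1
    have a1 := w.h34
    have a1' := w'.h34
    rw [← hg.2] at a1
    rw [← hg'.2] at a1'
    have := three_walk hK w.h01 a1 w.h45 w'.h01 a1' w'.h45
      (ne_of_fst (by rw [w.d]; exact hg.1.2.2.symm)) (fun h => hR (h ▸ w.h01))
      (ne_of_fst (by rw [w'.d]; exact hg'.1.2.2.symm)) (fun h => hR (h ▸ w'.h01))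
    rw [← w.d, ← w'.d, this.2]
  | 8 =>
    refine card_snd _ fun g hg g' hg' _ => ?_
    simp only [Finset.mem_filter, Finset.mem_univ, true_and, Bad] at hg hg'
    have w := hs g hg.1
    have w' := hs g' hg'.1
    have a1 := w.h23
    have a1' := w'.h23
    rw [hg.2] at a1
    rw [hg'.2] at a1'
    have := three_walk hK w.h01 w.h12 a1 w'.h01 w'.h12 a1'
      (ne_of_fst (by rw [w.b]; exact hg.1.1.symm)) (fun h => hR (h ▸ w.h01))
      (ne_of_fst (by rw [w'.b]; exact hg'.1.1.symm)) (fun h => hR (h ▸ w'.h01))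
    rw [← w.b, ← w'.b, this.2]
  | 9 =>
    refine card_fst _ fun g hg g' hg' h => ?_
    simp only [Finset.mem_filter, Finset.mem_univ, true_and, Bad] at hg hg'
    have w := hs g hg.1
    have w' := hs g' hg'.1
    have a1 := w.h12
    have a1' := w'.h12
    rw [hg.2.1] at a1
    rw [hg'.2.1] at a1'
    have e2 : (P e x y g).2.1 = (P e x y g').2.1 := nbr_unique a1 a1' (by rw [w.b, w'.b, h])
    have b1 := w'.h23
    rw [← e2] at b1
    have := three_walk hK w.h23 w.h34 w.h45 b1 w'.h34 w'.h45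
      (ne_of_fst (by rw [w.b, w.d]; exact hg.1.2.1)) hg.2.2
      (ne_of_fst (by rw [w.b, w'.d, h]; exact hg'.1.2.1)) hg'.2.2
    rw [← w.d, ← w'.d, this.2]
  | 10 =>
    refine card_snd _ fun g hg g' hg' h => ?_
    simp only [Finset.mem_filter, Finset.mem_univ, true_and, Bad] at hg hg'
    have w := hs g hg.1
    have w' := hs g' hg'.1
    have a1 := w.h12
    have a1' := w'.h12
    rw [← hg.2] at a1
    rw [← hg'.2] at a1'
    rw [← w.b, ← w'.b, ← hg.2, ← hg'.2, abs_unique hK w.h01 a1 w'.h01 a1']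
  | 11 =>
    refine card_snd _ fun g hg g' hg' h => ?_
    simp only [Finset.mem_filter, Finset.mem_univ, true_and, Bad] at hg hg'
    have w := hs g hg.1
    have w' := hs g' hg'.1
    have e4 : (P e x y g).2.2.2 = (P e x y g').2.2.2 :=
      nbr_unique w.h45.symm w'.h45.symm (by rw [w.d, w'.d, h])
    have a1 := w.h23
    have a1' := w'.h23
    rw [hg.2] at a1
    rw [hg'.2] at a1'
    have b1 := w'.h34.symm
    rw [← e4] at b1
    rw [← w.b, ← w'.b, hg.2, hg'.2, abs_unique hK w.h34.symm a1 b1 a1']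
  | 12 =>
    refine card_fst _ fun g hg g' hg' h => ?_
    simp only [Finset.mem_filter, Finset.mem_univ, true_and, Bad] at hg hg'
    have w := hs g hg.1
    have w' := hs g' hg'.1
    have a1 := w.h34
    have a1' := w'.h34
    rw [hg.2] at a1
    rw [hg'.2] at a1'
    rw [← w.d, ← w'.d, abs_unique hK w.h45.symm a1 w'.h45.symm a1']

open Classical in
/-- the pairs which give a path -/
noncomputable def GoodSet (e : ℕ) (x y : K × K × K) : Finset (K × K) :=
  Finset.univ.filter fun g => Base x g ∧ Good e x y g (P e x y g)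

theorem mem_goodSet {x y : K × K × K} {g : K × K} :
    g ∈ GoodSet e x y ↔ Base x g ∧ Good e x y g (P e x y g) := by
  simp [GoodSet]

open Classical in
theorem card_goodSet (hK : Fintype.card K = 2 ^ (2 * e + 1)) {x y : K × K × K} (hxy : x ≠ y)
    (hR : ¬ R e x y) :
    Fintype.card K * Fintype.card K ≤ (GoodSet e x y).card + 13 * Fintype.card K := by
  have hs := P_spec hK x y
  have hsub : (Finset.univ : Finset (K × K)) ⊆
      GoodSet e x y ∪ Finset.univ.biUnion fun i => Finset.univ.filter (Bad e x y i) := by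
    intro g _
    rw [Finset.mem_union, mem_goodSet, Finset.mem_biUnion]
    by_contra hno
    push Not at hno
    obtain ⟨h1, h2⟩ := hno
    have hb : ∀ i, ¬ Bad e x y i g := by
      intro i hi
      exact h2 i (Finset.mem_univ _) (by rw [Finset.mem_filter]; exact ⟨Finset.mem_univ _, hi⟩)
    have hbase : Base x g := ⟨hb 0, hb 1, hb 2⟩
    have w := hs g hbase
    have b3 := hb 3
    have b4 := hb 4
    have b5 := hb 5
    have b6 := hb 6
    have b7 := hb 7
    have b8 := hb 8
    have b9 := hb 9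
    have b10 := hb 10
    have b11 := hb 11
    have b12 := hb 12
    simp only [Bad, hbase, true_and] at b3 b4 b5 b6 b7 b8 b9 b10 b11 b12
    apply h1 hbase
    exact {
      w := w
      n01 := fun h => b9 ⟨h.symm, b8⟩
      n02 := ne_of_fst (by rw [w.b]; exact hbase.1.symm)
      n03 := fun h => b5 h.symm
      n04 := ne_of_fst (by rw [w.d]; exact hbase.2.2.symm)
      n12 := b10
      n13 := b7
      n14 := b6
      n15 := fun h => hR (h ▸ w.h01)
      n23 := b11
      n24 := ne_of_fst (by rw [w.b, w.d]; exact hbase.2.1)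
      n25 := ne_of_fst (by rw [w.b]; exact b3)
      n34 := b12
      n35 := b8
      n45 := ne_of_fst (by rw [w.d]; exact b4) }
  have h1 := Finset.card_le_card hsub
  have h2 := Finset.card_union_le (GoodSet e x y)
    (Finset.univ.biUnion fun i => Finset.univ.filter (Bad e x y i))
  have h3 : (Finset.univ.biUnion fun i => Finset.univ.filter (Bad e x y i)).card ≤
      (Finset.univ : Finset (Fin 13)).card * Fintype.card K :=
    Finset.card_biUnion_le_card_mul _ _ _ fun i _ => card_bad hK hxy hR i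
  rw [Finset.card_univ, Fintype.card_prod] at h1
  rw [Finset.card_univ, Fintype.card_fin] at h3
  omega

/-- the inner vertices of the chosen path -/
noncomputable def inner (e : ℕ) (x y : K × K × K) (g : K × K) (i : Fin 4) : K × K × K :=
  match i with
  | 0 => (P e x y g).1
  | 1 => (P e x y g).2.1
  | 2 => (P e x y g).2.2.1
  | 3 => (P e x y g).2.2.2

open Classical in
theorem card_through (hK : Fintype.card K = 2 ^ (2 * e + 1)) {x y : K × K × K}
    (v : K × K × K) (i : Fin 4) :
    ((GoodSet e x y).filter fun g => inner e x y g i = v).card ≤ Fintype.card K := by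
  match i with
  | 0 =>
    refine card_fst _ fun g hg g' hg' h => ?_
    rw [Finset.mem_filter, mem_goodSet] at hg hg'
    obtain ⟨⟨hb, hg⟩, hv⟩ := hg
    obtain ⟨⟨hb', hg'⟩, hv'⟩ := hg'
    simp only [inner] at hv hv'
    have w := hg.w
    have w' := hg'.w
    have a1 := w.h12
    have a1' := w'.h12
    rw [hv] at a1
    rw [hv'] at a1'
    have e2 : (P e x y g).2.1 = (P e x y g').2.1 := nbr_unique a1 a1' (by rw [w.b, w'.b, h])
    have b1 := w'.h23
    rw [← e2] at b1
    have := three_walk hK w.h23 w.h34 w.h45 b1 w'.h34 w'.h45 hg.n24 hg.n35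
      (by rw [e2]; exact hg'.n24) hg'.n35
    rw [← w.d, ← w'.d, this.2]
  | 1 =>
    refine card_snd _ fun g hg g' hg' h => ?_
    rw [Finset.mem_filter, mem_goodSet] at hg hg'
    obtain ⟨⟨hb, hg⟩, hv⟩ := hg
    obtain ⟨⟨hb', hg'⟩, hv'⟩ := hg'
    simp only [inner] at hv hv'
    rw [← hg.w.b, ← hg'.w.b, hv, hv']
  | 2 =>
    refine card_fst _ fun g hg g' hg' h => ?_
    rw [Finset.mem_filter, mem_goodSet] at hg hg'
    obtain ⟨⟨hb, hg⟩, hv⟩ := hg
    obtain ⟨⟨hb', hg'⟩, hv'⟩ := hg'
    simp only [inner] at hv hv'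
    have w := hg.w
    have w' := hg'.w
    have a1 := w.h34
    have a1' := w'.h34
    have hne := hg.n35
    rw [hv] at a1 hne
    rw [hv'] at a1'
    rw [← w.d, ← w'.d, two_walk a1 w.h45 a1' w'.h45 hne]
  | 3 =>
    refine card_fst _ fun g hg g' hg' h => ?_
    rw [Finset.mem_filter, mem_goodSet] at hg hg'
    obtain ⟨⟨hb, hg⟩, hv⟩ := hg
    obtain ⟨⟨hb', hg'⟩, hv'⟩ := hg'
    simp only [inner] at hv hv'
    rw [← hg.w.d, ← hg'.w.d, hv, hv']

end Q231.Sat6
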