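import Mathlib

/-!
# Saturated graphs

The notions of containment, freeness, cycles and numbers of copies are those of Mathlib.
-/

namespace Q231.Sat6

/-- `G` is `F`-saturated: it does not contain `F`, but adding any missing edge creates a copy of
`F`. -/
def Saturated {V W : Type*} (F : SimpleGraph W) (G : SimpleGraph V) : Prop :=
  F.Free G ∧ ∀ x y : V, x ≠ y → ¬ G.Adj x y → F.IsContained (G ⊔ SimpleGraph.edge x y)

/-- `sat n H F`: the minimum, over all `F`-saturated graphs on `n` vertices, of the number of
(unlabelled) copies of `H`. -/
noncomputable def sat (n : ℕ) {U W : Type*} (H : SimpleGraph U) (F : SimpleGraph W) : ℕ :=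
  sInf {k | ∃ G : SimpleGraph (Fin n), Saturated F G ∧ G.copyCount H = k}

end Q231.Sat6
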