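import Pool.Agent.Q231.Sat6.Color
import Pool.Agent.Q231.Sat6.Defs

namespace Q231.Sat6

open SimpleGraph

theorem inj6 {V : Type*} {a b c d e f : V} (h01 : a ≠ b) (h02 : a ≠ c) (h03 : a ≠ d)
    (h04 : a ≠ e) (h05 : a ≠ f) (h12 : b ≠ c) (h13 : b ≠ d) (h14 : b ≠ e) (h15 : b ≠ f)
    (h23 : c ≠ d) (h24 : c ≠ e) (h25 : c ≠ f) (h34 : d ≠ e) (h35 : d ≠ f) (h45 : e ≠ f) :
    Function.Injective ![a, b, c, d, e, f] := by
  intro i j h
  fin_cases i <;> fin_cases j <;>
    simp_all [h01.symm, h02.symm, h03.symm, h04.symm, h05.symm, h12.symm, h13.symm, h14.symm,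
      h15.symm, h23.symm, h24.symm, h25.symm, h34.symm, h35.symm, h45.symm]

theorem contained6 {V : Type*} (G : SimpleGraph V) (v : Fin 6 → V) (hv : Function.Injective v)
    (h : ∀ i, G.Adj (v i) (v (i + 1))) : (cycleGraph 6).IsContained G := by
  refine ⟨⟨⟨v, ?_⟩, hv⟩⟩
  intro i j hij
  rw [cycleGraph_adj] at hij
  rcases hij with hij | hij
  · have : i = j + 1 := by revert i j; decide
    rw [this]
    exact (h j).symm
  · have : j = i + 1 := by revert i j; decide
    rw [this]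
    exact h i

theorem cyc6_adj (i : Fin 6) : (cycleGraph 6).Adj i (i + 1) := by
  rw [cycleGraph_adj]
  right
  revert i
  decide

theorem cyc4_adj (i : Fin 4) : (cycleGraph 4).Adj i (i + 1) := by
  rw [cycleGraph_adj]
  right
  revert i
  decide

variable {K : Type*} [Field K] [Fintype K] [DecidableEq K] [CharP K 2] {e : ℕ}

/-- the graph of the relation `R` without loops -/
def Gam (K : Type*) [Field K] [Fintype K] [CharP K 2] (e : ℕ) : SimpleGraph (K × K × K) where
  Adj x y := x ≠ y ∧ R e x y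
  symm := ⟨fun _ _ h => ⟨h.1.symm, h.2.symm⟩⟩
  loopless := ⟨fun _ h => h.1 rfl⟩

omit [Field K] [DecidableEq K] [CharP K 2] in
theorem small_class (c : (K × K × K) → Fin 64) :
    ∃ κ, 64 * (Finset.univ.filter fun v => c v = κ).card ≤ Fintype.card (K × K × K) := by
  by_contra hno
  push Not at hno
  have h1 : Fintype.card (K × K × K) =
      ∑ κ : Fin 64, (Finset.univ.filter fun v => c v = κ).card := by
    rw [← Finset.card_univ]
    exact Finset.card_eq_sum_card_fiberwise (fun _ _ => Finset.mem_coe.2 (Finset.mem_univ _))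
  have h2 : ∑ κ : Fin 64, (Fintype.card (K × K × K) + 1) ≤
      ∑ κ : Fin 64, 64 * (Finset.univ.filter fun v => c v = κ).card :=
    Finset.sum_le_sum fun κ _ => hno κ
  rw [← Finset.mul_sum, ← h1, Finset.sum_const, Finset.card_univ, Fintype.card_fin,
    smul_eq_mul] at h2
  omega

theorem graph_exists (hK : Fintype.card K = 2 ^ (2 * e + 1))
    (hbig : ((Fintype.card K : ℝ) ^ 3) ^ 2 * 64 * rr ^ ((Fintype.card K - 13) / 16) < 1)
    (n : ℕ) (h1 : Fintype.card K ^ 3 ≤ 64 * n) (h2 : n ≤ Fintype.card K ^ 3) :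
    ∃ G : SimpleGraph (Fin n), Saturated (cycleGraph 6) G ∧ (cycleGraph 4).Free G := by
  classical
  obtain ⟨c, hc⟩ := exists_coloring hK hbig
  obtain ⟨κ, hκ⟩ := small_class c
  have hV : Fintype.card (K × K × K) = Fintype.card K ^ 3 := by
    simp only [Fintype.card_prod]; ring
  obtain ⟨S, hS1, hS2⟩ := Finset.exists_superset_card_eq
    (s := Finset.univ.filter fun v => c v = κ) (n := n) (by omega) (by rw [hV]; exact h2)
  let φ : Fin n → K × K × K := fun i => ((S.equivFinOfCardEq hS2).symm i : K × K × K)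
  have hφ : Function.Injective φ := by
    intro i j h
    exact (S.equivFinOfCardEq hS2).symm.injective (Subtype.ext h)
  have hφS : ∀ v ∈ S, ∃ i, φ i = v := by
    intro v hv
    exact ⟨S.equivFinOfCardEq hS2 ⟨v, hv⟩, by simp [φ]⟩
  refine ⟨(Gam K e).comap φ, ⟨?_, ?_⟩, ?_⟩
  · rintro ⟨f⟩
    have hv : ∀ i, R e (φ (f i)) (φ (f (i + 1))) := fun i => (f.toHom.map_rel (cyc6_adj i)).2
    have hne : ∀ i j, i ≠ j → φ (f i) ≠ φ (f j) := fun i j hij h => hij (f.injective (hφ h))
    exact six hK (hv 0) (hv 1) (hv 2) (hv 3) (hv 4) (hv 5)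
      (nbr_ne (hv 0).symm (hv 1) (hne 0 2 (by decide)))
      (nbr_ne (hv 2).symm (hv 3) (hne 2 4 (by decide)))
      (nbr_ne (hv 0) (hv 5).symm (hne 1 5 (by decide)))
      (nbr_ne (hv 4).symm (hv 5) (hne 4 0 (by decide)))
  · intro x y hxy hadj
    have hne : φ x ≠ φ y := fun h => hxy (hφ h)
    have hR : ¬ R e (φ x) (φ y) := fun h => hadj ⟨hne, h⟩
    obtain ⟨g, hg, hgc⟩ := hc (φ x) (φ y) hne hR κ
    have hgood := (mem_goodSet.1 hg).2
    have hin : ∀ i, ∃ k, φ k = inner e (φ x) (φ y) g i := by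
      intro i
      apply hφS
      apply hS1
      rw [Finset.mem_filter]
      exact ⟨Finset.mem_univ _, hgc i⟩
    obtain ⟨k1, hk1⟩ := hin 0
    obtain ⟨k2, hk2⟩ := hin 1
    obtain ⟨k3, hk3⟩ := hin 2
    obtain ⟨k4, hk4⟩ := hin 3
    simp only [inner] at hk1 hk2 hk3 hk4
    obtain ⟨w, n01, n02, n03, n04, n12, n13, n14, n15, n23, n24, n25, n34, n35, n45⟩ := hgood
    obtain ⟨w01, w12, w23, w34, w45, _, _⟩ := w
    rw [← hk1] at n01 n12 n13 n14 n15 w01 w12
    rw [← hk2] at n02 n12 n23 n24 n25 w12 w23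
    rw [← hk3] at n03 n13 n23 n34 n35 w23 w34
    rw [← hk4] at n04 n14 n24 n34 n45 w34 w45
    have lift : ∀ {a b : Fin n}, φ a ≠ φ b → a ≠ b := fun h hab => h (by rw [hab])
    apply contained6 _ ![x, k1, k2, k3, k4, y]
    · exact inj6 (lift n01) (lift n02) (lift n03) (lift n04) hxy (lift n12) (lift n13) (lift n14)
        (lift n15) (lift n23) (lift n24) (lift n25) (lift n34) (lift n35) (lift n45)
    · intro i
      match i with
      | 0 => exact Or.inl ⟨n01, w01⟩
      | 1 => exact Or.inl ⟨n12, w12⟩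
      | 2 => exact Or.inl ⟨n23, w23⟩
      | 3 => exact Or.inl ⟨n34, w34⟩
      | 4 => exact Or.inl ⟨n45, w45⟩
      | 5 =>
        right
        rw [edge_adj]
        exact ⟨Or.inr ⟨rfl, rfl⟩, hxy.symm⟩
  · rintro ⟨f⟩
    have hv : ∀ i, R e (φ (f i)) (φ (f (i + 1))) := fun i => (f.toHom.map_rel (cyc4_adj i)).2
    have hne : ∀ i j, i ≠ j → φ (f i) ≠ φ (f j) := fun i j hij h => hij (f.injective (hφ h))
    exact hne 1 3 (by decide) (two_walk (hv 0) (hv 1) (hv 3).symm (hv 2).symm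
      (hne 0 2 (by decide)))

theorem main : ∃ n₀ : ℕ, ∀ n ≥ n₀, ∃ G : SimpleGraph (Fin n),
    Saturated (cycleGraph 6) G ∧ (cycleGraph 4).Free G := by
  classical
  obtain ⟨q0, hq0⟩ := numeric
  refine ⟨8 * 64 ^ q0 + 1, fun n hn => ?_⟩
  have hex : ∃ e, n ≤ 8 * 64 ^ e := ⟨n, by
    have := Nat.lt_pow_self (n := n) (show 1 < 64 by norm_num)
    omega⟩
  let e := Nat.find hex
  have he1 : n ≤ 8 * 64 ^ e := Nat.find_spec hex
  have he2 : q0 < e := by
    by_contra hle
    push Not at hle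
    have : 64 ^ e ≤ 64 ^ q0 := Nat.pow_le_pow_right (by norm_num) hle
    omega
  have he3 : 8 * 64 ^ (e - 1) < n := by
    have := Nat.find_min hex (m := e - 1) (by show e - 1 < e; omega)
    omega
  have he4 : 64 ^ e = 64 * 64 ^ (e - 1) := by
    conv_lhs => rw [show e = (e - 1) + 1 by omega]
    rw [pow_succ]; ring
  let K := GaloisField 2 (2 * e + 1)
  let _ : Fintype K := Fintype.ofFinite K
  have hK : Fintype.card K = 2 ^ (2 * e + 1) := by
    rw [← Nat.card_eq_fintype_card]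
    exact GaloisField.card 2 (2 * e + 1) (by omega)
  have hK3 : Fintype.card K ^ 3 = 8 * 64 ^ e := by
    rw [hK, ← pow_mul, show (2 * e + 1) * 3 = 3 + 6 * e by ring, pow_add, pow_mul]
    norm_num
  have hbig := hq0 (Fintype.card K) (by
    rw [hK]
    have h1 : e < 2 ^ e := Nat.lt_two_pow_self
    have h2 : 2 ^ e ≤ 2 ^ (2 * e + 1) := Nat.pow_le_pow_right (by norm_num) (by omega)
    omega)
  exact graph_exists hK hbig n (by rw [hK3]; omega) (by rw [hK3]; exact he1)

end Q231.Sat6
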