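import Pool.Agent.Q231.Sat6.Alg

namespace Q231.Sat6

set_option linter.unusedSectionVars false

variable {K : Type*} [Field K] [Fintype K] [CharP K 2] {e : ℕ}

/-- `p` is a walk from `x` to `y` of length five, with prescribed first coordinates of the second
and the fourth inner vertex -/
structure IsWalk (e : ℕ) (x y : K × K × K) (g : K × K)
    (p : (K × K × K) × (K × K × K) × (K × K × K) × (K × K × K)) : Prop where
  h01 : R e x p.1
  h12 : R e p.1 p.2.1
  h23 : R e p.2.1 p.2.2.1
  h34 : R e p.2.2.1 p.2.2.2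
  h45 : R e p.2.2.2 y
  b : p.2.1.1 = g.1
  d : p.2.2.2.1 = g.2

/-- existence of walks of length five -/
theorem exists_walk (hK : Fintype.card K = 2 ^ (2 * e + 1)) (x y : K × K × K) (g : K × K)
    (h1 : g.1 ≠ x.1) (h2 : g.1 ≠ g.2) (h3 : g.2 ≠ x.1) : ∃ p, IsWalk e x y g p := by
  obtain ⟨b, d⟩ := g
  simp only at h1 h2 h3
  have hA : x.1 + b ≠ 0 := fun h => h1 (eq_of_add h).symm
  have hB : b + d ≠ 0 := fun h => h2 (eq_of_add h)
  let L : K × K → K × K := fun ac =>
    (ac.1 * tau K e (x.1 + b) + ac.2 * tau K e (b + d),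
      tau K e ac.1 * (x.1 + b) + tau K e ac.2 * (b + d))
  have hL0 : ∀ ac : K × K, L ac = 0 → ac = 0 := by
    rintro ⟨a, c⟩ h
    have e1 : a * tau K e (x.1 + b) + c * tau K e (b + d) = 0 := congrArg Prod.fst h
    have e2 : tau K e a * (x.1 + b) + tau K e c * (b + d) = 0 := congrArg Prod.snd h
    have e1' := eq_of_add e1
    have e2' := eq_of_add e2
    have tB : tau K e (b + d) ≠ 0 := by rw [Ne, map_eq_zero]; exact hB
    by_cases ha : a = 0
    · subst ha
      have hc : c = 0 := by
        rw [zero_mul] at e1'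
        rcases mul_eq_zero.1 e1'.symm with h | h
        · exact h
        · exact absurd h tB
      rw [hc]; rfl
    · exfalso
      have hk := key hK (u := x.1 + b) (v := b + d) (X := a) (Y := c) hA hB ha
        (by rw [mul_comm, e1', mul_comm]) (by rw [mul_comm, e2', mul_comm])
      exact h3 (by linear_combination -hk)
  have hLinj : Function.Injective L := by
    intro u v huv
    have hadd : L (u + v) = L u + L v := by
      refine Prod.ext ?_ ?_
      · show (u.1 + v.1) * tau K e (x.1 + b) + (u.2 + v.2) * tau K e (b + d) = _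
        show _ = (u.1 * tau K e (x.1 + b) + u.2 * tau K e (b + d)) +
          (v.1 * tau K e (x.1 + b) + v.2 * tau K e (b + d))
        ring
      · show tau K e (u.1 + v.1) * (x.1 + b) + tau K e (u.2 + v.2) * (b + d) = _
        show _ = (tau K e u.1 * (x.1 + b) + tau K e u.2 * (b + d)) +
          (tau K e v.1 * (x.1 + b) + tau K e v.2 * (b + d))
        rw [map_add, map_add]; ring
    have : L (u + v) = 0 := by
      rw [hadd, huv]
      exact Prod.ext (add_self' _) (add_self' _)
    have h0 := hL0 _ this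
    exact Prod.ext (eq_of_add (congrArg Prod.fst h0)) (eq_of_add (congrArg Prod.snd h0))
  have hLsurj : Function.Surjective L := Finite.injective_iff_surjective.1 hLinj
  obtain ⟨⟨a, c⟩, hac⟩ := hLsurj (x.2.1 + y.2.2 + y.1 * tau K e d, x.2.2 + y.2.1 + d * tau K e y.1)
  have e1 : a * tau K e (x.1 + b) + c * tau K e (b + d) = x.2.1 + y.2.2 + y.1 * tau K e d :=
    congrArg Prod.fst hac
  have e2 : tau K e a * (x.1 + b) + tau K e c * (b + d) = x.2.2 + y.2.1 + d * tau K e y.1 :=
    congrArg Prod.snd hac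
  rw [map_add, map_add] at e1
  have c2 : (2 : K) = 0 := CharTwo.two_eq_zero
  refine ⟨(nb e x a, nb e (nb e x a) b, nb e (nb e y d) c, nb e y d), R_nb x a,
    R_nb (nb e x a) b, ?_, (R_nb (nb e y d) c).symm, (R_nb y d).symm, rfl, rfl⟩
  constructor
  · show ((x.2.1 + tau K e x.1 * a) + a * tau K e b) + ((y.2.2 + y.1 * tau K e d) + tau K e d * c) =
      tau K e b * c
    linear_combination e1 + (x.2.1 + y.2.2 + y.1 * tau K e d - tau K e b * c) * c2 -
      (x.2.1 + y.2.2 + y.1 * tau K e d) * c2 + (x.2.1 + y.2.2 + y.1 * tau K e d) * c2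
  · show ((x.2.2 + x.1 * tau K e a) + tau K e a * b) + ((y.2.1 + tau K e y.1 * d) + d * tau K e c) =
      b * tau K e c
    linear_combination e2 + (x.2.2 + y.2.1 + d * tau K e y.1 - b * tau K e c) * c2

end Q231.Sat6
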